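import Pool.Agent.Helper18.ZE.Defs

/-!
# Project ZE, piece P: the modulus
-/

set_option autoImplicit false

namespace Pool.Agent.Helper78.ZE

open Finset Pool.Agent.Helper18.ZE

theorem modulus_pos (c Q : ℕ) : 0 < modulus c Q :=
  prod_pos fun p hp => pow_pos (Nat.prime_of_mem_primeFactors hp).pos _

theorem prod_factorization {c : ℕ} (hc : c ≠ 0) : ∏ p ∈ c.primeFactors, p ^ c.factorization p = c :=
  Nat.prod_factorization_pow_eq_self hc

theorem modulus_pow_dvd {c Q q : ℕ} (hc : c ≠ 0) (hq : q ≤ 4 * Q) : modulus c Q ^ q ∣ c := by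
  conv_rhs => rw [← prod_factorization hc]
  unfold modulus
  rw [← prod_pow]
  refine prod_dvd_prod_of_dvd _ _ fun p _ => ?_
  rw [← pow_mul]
  refine pow_dvd_pow p ?_
  rw [mul_comm]
  exact (Nat.mul_le_mul_right _ hq).trans (Nat.mul_div_le _ _)

theorem log_modulus_le {c Q : ℕ} (hc : c ≠ 0) : 4 * Q * Real.log (modulus c Q) ≤ Real.log c := by
  have h1 : modulus c Q ^ (4 * Q) ≤ c := Nat.le_of_dvd (Nat.pos_of_ne_zero hc) (modulus_pow_dvd hc le_rfl)
  have h2 : ((modulus c Q : ℝ)) ^ (4 * Q) ≤ c := by exact_mod_cast h1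
  have h3 : (0 : ℝ) < modulus c Q := by exact_mod_cast modulus_pos c Q
  have h4 := Real.log_le_log (pow_pos h3 _) h2
  rw [Real.log_pow] at h4
  push_cast at h4
  exact h4

theorem le_log_modulus {c Q : ℕ} (hc : c ≠ 0) (hQ : 0 < Q) :
    Real.log c - 4 * Q * Real.log (∏ p ∈ c.primeFactors, p : ℕ) ≤ 4 * Q * Real.log (modulus c Q) := by
  have hr : 0 < ∏ p ∈ c.primeFactors, p := prod_pos fun p hp => (Nat.prime_of_mem_primeFactors hp).pos
  have h1 : c ≤ (modulus c Q * ∏ p ∈ c.primeFactors, p) ^ (4 * Q) := by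
    have h2 : (modulus c Q * ∏ p ∈ c.primeFactors, p) ^ (4 * Q) =
        ∏ p ∈ c.primeFactors, p ^ ((c.factorization p / (4 * Q) + 1) * (4 * Q)) := by
      unfold modulus
      rw [← prod_mul_distrib, ← prod_pow]
      refine prod_congr rfl fun p _ => ?_
      rw [← pow_succ, ← pow_mul]
    rw [h2]
    conv_lhs => rw [← prod_factorization hc]
    refine prod_le_prod' fun p hp => ?_
    refine Nat.pow_le_pow_right (Nat.prime_of_mem_primeFactors hp).pos ?_
    have h3 : 0 < 4 * Q := by omega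
    have h4 := Nat.lt_succ_iff.1 (Nat.lt_succ_of_lt (Nat.lt_mul_div_succ (c.factorization p) h3))
    rw [mul_comm]
    exact h4
  have h5 : (c : ℝ) ≤ ((modulus c Q : ℝ) * (∏ p ∈ c.primeFactors, p : ℕ)) ^ (4 * Q) := by exact_mod_cast h1
  have h6 : (0 : ℝ) < modulus c Q := by exact_mod_cast modulus_pos c Q
  have h7 : (0 : ℝ) < (∏ p ∈ c.primeFactors, p : ℕ) := by exact_mod_cast hr
  have h8 : (0 : ℝ) < c := by exact_mod_cast Nat.pos_of_ne_zero hc
  have h9 := Real.log_le_log h8 h5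
  rw [Real.log_pow, Real.log_mul h6.ne' h7.ne'] at h9
  push_cast at h9 ⊢
  linarith

end Pool.Agent.Helper78.ZE
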